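import Pool.Agent.Helper56.TH.Rec2

/-!
# Subset sums modulo powers of two inside a model of `RCA₀` (MP_6f1bc5_lc, block T4)
-/

set_option linter.unusedSectionVars false

universe u

namespace Pool.Agent.Helper56.TH

open Classical

variable {M : Type u} [CommSemiring M] [LinearOrder M] [IsStrictOrderedRing M]
  [CanonicallyOrderedAdd M] {S : Set (Set M)}

namespace SubSum

/-! ### division with remainder -/

theorem exists_div (h : Base S) {d : M} (hd : 0 < d) (x : M) :
    ∃ q ≤ x, ∃ r < d, x = d * q + r := by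
  refine h.ind (P := fun x => ∃ q ≤ x, ∃ r < d, x = d * q + r) ?_
    ⟨0, zero_le, 0, hd, by simp⟩ ?_ x
  · refine h.bex_le h.fn_id (P := fun q x => ∃ r < d, x = d * q + r) ?_
    refine h.bex (h.fn_const d) (P := fun r p => p2 p = d * p1 p + r) ?_
    exact h.eq (h.fn_p2_comp h.fn_p2)
      (h.fn_add (h.fn_mul (h.fn_const d) (h.fn_p1_comp h.fn_p2)) h.fn_p1)
  · rintro x ⟨q, hq, r, hr, hx⟩
    rcases (h.add_one_le_iff.2 hr).lt_or_eq with h1 | h1
    · exact ⟨q, hq.trans le_self_add, r + 1, h1, by rw [hx, add_assoc]⟩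
    · exact ⟨q + 1, add_le_add_left hq 1, 0, hd, by
        rw [hx, add_zero, mul_add, mul_one, add_assoc, h1]⟩

theorem div_unique (h : Base S) {d q r q' r' : M} (hr : r < d) (hr' : r' < d)
    (he : d * q + r = d * q' + r') : q = q' ∧ r = r' := by
  have key : ∀ {q r q' r' : M}, r < d → q < q' → d * q + r < d * q' + r' := by
    intro q r q' r' hr hq
    have h1 : q + 1 ≤ q' := h.add_one_le_iff.2 hq
    calc d * q + r < d * q + d := by gcongr
      _ = d * (q + 1) := by ring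
      _ ≤ d * q' := by gcongr
      _ ≤ d * q' + r' := le_self_add
  rcases lt_trichotomy q q' with h1 | h1 | h1
  · exact absurd he (key hr h1).ne
  · subst h1
    exact ⟨rfl, add_left_cancel he⟩
  · exact absurd he (key hr' h1).ne'

theorem exists_rem (h : Base S) {q : M} (hq : 0 < q) : ∃ rm : M → M, Fn S rm ∧
    (∀ x, rm x < q) ∧ (∀ x, ∃ a, x = q * a + rm x) ∧ ∀ a r, r < q → rm (q * a + r) = r := by
  choose a ha rm h2 h3 using exists_div h hq
  have hu : ∀ b r, r < q → rm (q * b + r) = r := by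
    intro b r hr
    exact (div_unique h (h2 _) hr (h3 (q * b + r)).symm).2
  refine ⟨rm, ?_, h2, fun x => ⟨_, h3 x⟩, hu⟩
  refine Base.fn_of_graph (G := fun x y => y < q ∧ ∃ b ≤ x, x = q * b + y) ?_ ?_
  · refine h.and (h.lt h.fn_p2 (h.fn_const q)) ?_
    refine h.bex_le h.fn_p1 (P := fun b p => p1 p = q * b + p2 p) ?_
    exact h.eq (h.fn_p1_comp h.fn_p2)
      (h.fn_add (h.fn_mul (h.fn_const q) h.fn_p1) (h.fn_p2_comp h.fn_p2))
  · intro x y
    constructor
    · rintro rfl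
      exact ⟨h2 x, a x, ha x, h3 x⟩
    · rintro ⟨hy, b, -, hb⟩
      rw [hb]
      exact hu b y hy

theorem even_or_odd (h : Base S) (x : M) : ∃ a, x = 2 * a ∨ x = 2 * a + 1 := by
  obtain ⟨q, -, r, hr, hx⟩ := exists_div h (d := (2 : M)) two_pos x
  have h1 : r < 1 + 1 := by rwa [one_add_one_eq_two]
  rcases (h.lt_add_one_iff.1 h1).lt_or_eq with h2 | h2
  · rw [h.lt_one_iff] at h2
    exact ⟨q, Or.inl (by rw [hx, h2, add_zero])⟩
  · exact ⟨q, Or.inr (by rw [hx, h2])⟩

theorem odd_ne_even (h : Base S) {a b : M} (he : 2 * a + 1 = 2 * b) : False := by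
  have := (div_unique h (d := (2 : M)) (q := a) (r := 1) (q' := b) (r' := 0) one_lt_two two_pos
    (by rw [he, add_zero])).2
  exact one_ne_zero this

/-! ### powers of two -/

section Pow

variable {p : M → M}

theorem pow_pos (h : Base S) (hp : IsPow S p) (n : M) : 0 < p n := by
  refine h.ind (P := fun n => 0 < p n) (h.lt (h.fn_const 0) hp.fn) ?_ ?_ n
  · rw [hp.zero]; exact one_pos
  · intro n hn
    rw [hp.succ]
    exact mul_pos two_pos hn

theorem pow_add (h : Base S) (hp : IsPow S p) (m n : M) : p (m + n) = p m * p n := by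
  refine h.ind (P := fun n => p (m + n) = p m * p n) ?_ ?_ ?_ n
  · exact h.eq (h.fn_comp hp.fn (h.fn_add (h.fn_const m) h.fn_id))
      (h.fn_mul (h.fn_const (p m)) hp.fn)
  · rw [add_zero, hp.zero, mul_one]
  · intro n hn
    rw [← add_assoc, hp.succ, hn, hp.succ]
    ring

theorem pow_mono (h : Base S) (hp : IsPow S p) {m n : M} (hmn : m ≤ n) : p m ≤ p n := by
  obtain ⟨k, rfl⟩ := exists_add_of_le hmn
  rw [pow_add h hp]
  have : 1 ≤ p k := h.pos_iff.1 (pow_pos h hp k)
  calc p m = p m * 1 := (mul_one _).symm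
    _ ≤ p m * p k := by gcongr

theorem pow_split (h : Base S) (hp : IsPow S p) {j k : M} (hjk : j < k) :
    ∃ m, p k = p j * (2 * m) := by
  obtain ⟨m, rfl⟩ := exists_add_of_le (h.add_one_le_iff.2 hjk)
  refine ⟨p m, ?_⟩
  rw [pow_add h hp, hp.succ]
  ring

/-- inverse of an odd number modulo a power of two -/
theorem odd_inv (h : Base S) (hp : IsPow S p) (a m : M) :
    ∃ n w, n * (2 * a + 1) = 1 + w ∧ p m ∣ w := by
  have key : ∃ n, ∃ w ≤ n * (2 * a + 1), n * (2 * a + 1) = 1 + w ∧ p m ∣ w := by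
    refine h.sigma_ind (P := fun n m => ∃ w ≤ n * (2 * a + 1), n * (2 * a + 1) = 1 + w ∧ p m ∣ w)
      ?_ ?_ ?_ m
    · refine h.bex_le (h.fn_mul h.fn_p1 (h.fn_const (2 * a + 1)))
        (P := fun w q => p1 q * (2 * a + 1) = 1 + w ∧ p (p2 q) ∣ w) ?_
      refine h.and ?_ ?_
      · exact h.eq (h.fn_mul (h.fn_p1_comp h.fn_p2) (h.fn_const _))
          (h.fn_add (h.fn_const 1) h.fn_p1)
      · exact h.dvd (h.fn_comp hp.fn (h.fn_p2_comp h.fn_p2)) h.fn_p1
    · refine ⟨1, 2 * a, ?_, by ring, ?_⟩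
      · rw [one_mul]; exact le_self_add
      · rw [hp.zero]; exact one_dvd _
    · rintro m ⟨n, w, hw, h1, z, rfl⟩
      obtain ⟨z', rfl | rfl⟩ := even_or_odd h z
      · refine ⟨n, _, hw, h1, ⟨z', ?_⟩⟩
        rw [hp.succ]; ring
      · have h2 : (n + p m) * (2 * a + 1) = 1 + p m * 2 * (z' + a + 1) := by
          rw [add_mul, h1]; ring
        refine ⟨n + p m, _, ?_, h2, ⟨z' + a + 1, ?_⟩⟩
        · rw [h2]; exact le_add_self
        · rw [hp.succ]; ring
  obtain ⟨n, w, -, h1, h2⟩ := key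
  exact ⟨n, w, h1, h2⟩

/-- if `2 ^ t` does not divide `d` then `2 ^ t` is a multiple of `d` modulo every `2 ^ m` -/
theorem exists_mult (h : Base S) (hp : IsPow S p) {t d : M} (hd : ¬ p t ∣ d) (m : M) :
    ∃ n z, n * d = p t + p m * z := by
  obtain ⟨v', hv', hmin⟩ := h.least (P := fun v => ¬ p v ∣ d)
    (h.not (h.dvd hp.fn (h.fn_const d))) ⟨t, hd⟩
  have hv0 : v' ≠ 0 := by
    rintro rfl
    exact hv' (by rw [hp.zero]; exact one_dvd _)
  obtain ⟨v, rfl⟩ := h.exists_pred (pos_iff_ne_zero.2 hv0)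
  have hvd : p v ∣ d := not_not.1 (hmin v (h.lt_add_one_iff.2 le_rfl))
  have hvt : v < t := by
    by_contra hc
    exact hmin t (h.lt_add_one_iff.2 (not_lt.1 hc)) hd
  obtain ⟨o, rfl⟩ := hvd
  obtain ⟨a, rfl | rfl⟩ := even_or_odd h o
  · exact absurd ⟨a, by rw [hp.succ]; ring⟩ hv'
  · obtain ⟨n, w, h1, z, rfl⟩ := odd_inv h hp a m
    obtain ⟨s, hs⟩ := pow_split h hp hvt
    refine ⟨2 * s * n, p v * (2 * s) * z, ?_⟩
    calc 2 * s * n * (p v * (2 * a + 1)) = p v * (2 * s) * (n * (2 * a + 1)) := by ring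
      _ = p v * (2 * s) * (1 + p m * z) := by rw [h1]
      _ = p v * (2 * s) + p m * (p v * (2 * s) * z) := by ring
      _ = p t + p m * (p v * (2 * s) * z) := by rw [← hs]

/-! ### bits -/

/-- the bit number `j` of `P` -/
noncomputable def bt (p : M → M) (j P : M) : M :=
  if ∃ a ≤ P, ∃ c < p j, P = p j * (2 * a + 1) + c then 1 else 0

theorem fn_bt (h : Base S) (hp : IsPow S p) : Fn₂ S (bt p) := by
  refine h.fn_ite (P := fun q => ∃ a ≤ p2 q, ∃ c < p (p1 q), p2 q = p (p1 q) * (2 * a + 1) + c)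
    ?_ (h.fn_const 1) (h.fn_const 0)
  refine h.bex_le h.fn_p2 (P := fun a q => ∃ c < p (p1 q), p2 q = p (p1 q) * (2 * a + 1) + c) ?_
  refine h.bex (h.fn_comp hp.fn (h.fn_p1_comp h.fn_p2))
    (P := fun c q => p2 (p2 q) = p (p1 (p2 q)) * (2 * p1 q + 1) + c) ?_
  refine h.eq (h.fn_p2_comp (h.fn_p2_comp h.fn_p2)) (h.fn_add (h.fn_mul
    (h.fn_comp hp.fn (h.fn_p1_comp (h.fn_p2_comp h.fn_p2))) ?_) h.fn_p1)
  exact h.fn_add (h.fn_mul (h.fn_const 2) (h.fn_p1_comp h.fn_p2)) (h.fn_const 1)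

theorem bt_01 (p : M → M) (j P : M) : bt p j P = 0 ∨ bt p j P = 1 := by
  unfold bt
  split_ifs
  · exact Or.inr rfl
  · exact Or.inl rfl

theorem bt_one (h : Base S) (hp : IsPow S p) {j P a c : M} (hc : c < p j)
    (hP : P = p j * (2 * a + 1) + c) : bt p j P = 1 := by
  unfold bt
  rw [if_pos]
  refine ⟨a, ?_, c, hc, hP⟩
  have h1 : 1 ≤ p j := h.pos_iff.1 (pow_pos h hp j)
  calc a = 1 * a := (one_mul a).symm
    _ ≤ p j * (2 * a + 1) := by
      gcongr
      calc a ≤ a + a + 1 := by rw [add_assoc]; exact le_self_add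
        _ = 2 * a + 1 := by ring
    _ ≤ P := by rw [hP]; exact le_self_add

theorem bt_zero (h : Base S) {j P a c : M} (hc : c < p j)
    (hP : P = p j * (2 * a) + c) : bt p j P = 0 := by
  unfold bt
  rw [if_neg]
  rintro ⟨a', -, c', hc', hP'⟩
  have := (div_unique h hc' hc (hP'.symm.trans hP)).1
  exact odd_ne_even h this

theorem bt_large (h : Base S) (hp : IsPow S p) {j k P : M} (hP : P < p k) (hkj : k ≤ j) :
    bt p j P = 0 :=
  bt_zero h (a := 0) (lt_of_lt_of_le hP (pow_mono h hp hkj)) (by ring)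

theorem bt_new (h : Base S) (hp : IsPow S p) {k P : M} (hP : P < p k) :
    bt p k (P + p k) = 1 :=
  bt_one h hp (a := 0) hP (by ring)

theorem bt_add (h : Base S) (hp : IsPow S p) {j k : M} (hjk : j < k) (P : M) :
    bt p j (P + p k) = bt p j P := by
  obtain ⟨m, hm⟩ := pow_split h hp hjk
  obtain ⟨u, -, c, hc, hP⟩ := exists_div h (pow_pos h hp j) P
  obtain ⟨a, rfl | rfl⟩ := even_or_odd h u
  · rw [bt_zero h hc hP, bt_zero h (a := a + m) hc (by rw [hm, hP]; ring)]
  · rw [bt_one h hp hc hP, bt_one h hp (a := a + m) hc (by rw [hm, hP]; ring)]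

end Pow

end SubSum

open SubSum in
theorem subset_sum (h : Base S) {p : M → M} (hp : IsPow S p) {D : M → M} (hD : Fn S D)
    (B t i : M) (hnd : ∀ j < p (t + i + 1), ¬ p t ∣ D j) :
    ∃ χ : M → M, Fn S χ ∧ (∀ j, χ j = 0 ∨ χ j = 1) ∧
      ∀ F : M → M, Fn S F → F 0 = B → (∀ j, F (j + 1) = F j + χ j * D j) →
        ∃ r e, e < p t ∧ F (p (t + i + 1)) = p t * (p i * (2 * r + 1)) + e := by
  -- the modulus
  obtain ⟨q, hq⟩ : ∃ q, q = p (t + i + 1) := ⟨_, rfl⟩
  rw [← hq] at hnd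
  simp only [← hq]
  have hq0 : 0 < q := by rw [hq]; exact pow_pos h hp _
  have hq' : q = p t * p i * 2 := by
    rw [hq, hp.succ, pow_add h hp]; ring
  obtain ⟨rm, hrm, hrm1, hrm2, hrm3⟩ := exists_rem h hq0
  have hrm4 : ∀ a x, rm (q * a + x) = rm x := by
    intro a x
    obtain ⟨b, hb⟩ := hrm2 x
    calc rm (q * a + x) = rm (q * (a + b) + rm x) := by
          congr 1
          rw [mul_add, add_assoc, ← hb]
      _ = rm x := hrm3 _ _ (hrm1 x)
  -- the sums
  have hbt := fn_bt h hp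
  obtain ⟨F, hF, hF0, hF1⟩ := h.exists_rec (a := fun _ => B) (h.fn_const B)
    (g := fun n x e => x + bt p n e * D n) (by
      refine h.fn_add (h.fn_p1_comp h.fn_p2) (h.fn_mul ?_ (h.fn_comp hD h.fn_p1))
      exact h.fn_comp₂ hbt h.fn_p1 (h.fn_p2_comp h.fn_p2))
  have hFc : ∀ k P, P < p k → ∀ j, F (k + j) P = F k P := by
    intro k P hP j
    refine h.ind (P := fun j => F (k + j) P = F k P) ?_ ?_ ?_ j
    · exact h.eq (h.fn_comp₂ hF (h.fn_add (h.fn_const k) h.fn_id) (h.fn_const P)) (h.fn_const _)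
    · rw [add_zero]
    · intro j hj
      rw [← add_assoc, hF1, bt_large h hp hP le_self_add, zero_mul, add_zero, hj]
  have hFe : ∀ k P j, j ≤ k → F j (P + p k) = F j P := by
    intro k P j hj
    refine h.ind_le (P := fun j => F j (P + p k) = F j P) (n := k) ?_ ?_ ?_ hj
    · exact h.eq (h.fn_left hF _) (h.fn_left hF _)
    · rw [hF0, hF0]
    · intro j hj ih
      rw [hF1, hF1, ih, bt_add h hp hj]
  have hFn : ∀ k P, P < p k → F (k + 1) (P + p k) = F k P + D k := by
    intro k P hP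
    rw [hF1, hFe k P k le_rfl, bt_new h hp hP, one_mul]
  have hF00 : ∀ k, F k 0 = B := by
    intro k
    have := hFc 0 0 (by rw [hp.zero]; exact one_pos) k
    rwa [zero_add, hF0] at this
  -- the reachable residues
  let A : M → M → Prop := fun k r => ∃ P < p k, rm (F k P) = r
  have hA : Dec₂ S A := by
    refine h.bex (h.fn_comp hp.fn h.fn_p1) (P := fun P x => rm (F (p1 x) P) = p2 x) ?_
    exact h.eq (h.fn_comp hrm (h.fn_comp₂ hF (h.fn_p1_comp h.fn_p2) h.fn_p1))
      (h.fn_p2_comp h.fn_p2)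
  have hAmono : ∀ j k r, j ≤ k → A j r → A k r := by
    rintro j k r hjk ⟨P, hP, hr⟩
    obtain ⟨m, rfl⟩ := exists_add_of_le hjk
    exact ⟨P, lt_of_lt_of_le hP (pow_mono h hp hjk), by rw [hFc j P hP m]; exact hr⟩
  have hA0 : ∀ k, A k (rm B) := fun k => ⟨0, pow_pos h hp k, by rw [hF00]⟩
  -- the set of reachable residues stabilises
  have hstab : ∃ k < q, ∀ r, A (k + 1) r → A k r := by
    by_contra hc
    push Not at hc
    have hPn : Dec₂ S (fun r k => A k r ∧ ∀ j < k, ¬ A j r) := by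
      refine h.and (h.comp₂ hA h.fn_p2 h.fn_p1) ?_
      refine h.ball h.fn_p2 (P := fun j x => ¬ A j (p1 x)) ?_
      exact h.not (h.comp₂ hA h.fn_p1 (h.fn_p1_comp h.fn_p2))
    have hf := h.fn_lst_le (h.fn_const q) hPn
    have hex : ∀ k ≤ q, ∃ r ≤ q, A k r ∧ ∀ j < k, ¬ A j r := by
      intro k hk
      rcases eq_or_ne k 0 with rfl | hk0
      · exact ⟨rm B, (hrm1 B).le, hA0 0, fun j hj => absurd hj (not_lt.2 zero_le)⟩
      · obtain ⟨k, rfl⟩ := h.exists_pred (pos_iff_ne_zero.2 hk0)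
        obtain ⟨r, hr1, hr2⟩ := hc k (h.add_one_le_iff.1 hk)
        refine ⟨r, ?_, hr1, fun j hj hj' => hr2 (hAmono j k r (h.lt_add_one_iff.1 hj) hj')⟩
        obtain ⟨P, -, rfl⟩ := hr1
        exact (hrm1 _).le
    have hsp : ∀ k ≤ q, A k (lst (fun y => y ≤ q ∧ A k y ∧ ∀ j < k, ¬ A j y)) ∧
        ∀ j < k, ¬ A j (lst (fun y => y ≤ q ∧ A k y ∧ ∀ j < k, ¬ A j y)) := fun k hk =>
      (h.lst_le_spec hPn (hex k hk)).2.1
    obtain ⟨i', j', hij, hj, he⟩ := h.php hf q (fun j hj => by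
      obtain ⟨P, -, hP⟩ := (hsp j hj).1
      rw [← hP]
      exact hrm1 _)
    exact (hsp j' hj).2 i' hij (he ▸ (hsp i' (hij.le.trans hj)).1)
  obtain ⟨k, hk, hst⟩ := hstab
  have hcl : ∀ n, A k (rm (B + n * D k)) := by
    intro n
    refine h.ind (P := fun n => A k (rm (B + n * D k))) ?_ ?_ ?_ n
    · exact h.comp₂ hA (h.fn_const k) (h.fn_comp hrm (h.fn_add (h.fn_const B)
        (h.fn_mul h.fn_id (h.fn_const _))))
    · rw [zero_mul, add_zero]; exact hA0 k
    · rintro n ⟨P, hP, he⟩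
      apply hst
      refine ⟨P + p k, ?_, ?_⟩
      · rw [hp.succ, two_mul]
        gcongr
      · rw [hFn k P hP]
        obtain ⟨a, ha⟩ := hrm2 (F k P)
        obtain ⟨b, hb⟩ := hrm2 (B + n * D k)
        calc rm (F k P + D k) = rm (q * a + (rm (F k P) + D k)) := by
              rw [← add_assoc, ← ha]
          _ = rm (rm (F k P) + D k) := hrm4 _ _
          _ = rm (rm (B + n * D k) + D k) := by rw [he]
          _ = rm (q * b + (rm (B + n * D k) + D k)) := (hrm4 _ _).symm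
          _ = rm (B + (n + 1) * D k) := by
              rw [← add_assoc, ← hb]
              congr 1
              ring
  -- a good residue is reachable
  obtain ⟨w, -, e, he, hB⟩ := exists_div h (pow_pos h hp t) B
  have hi1 : 1 ≤ p i := h.pos_iff.1 (pow_pos h hp i)
  obtain ⟨u, hu⟩ : ∃ u, p i * (2 * w + 1) = w + u := by
    apply exists_add_of_le
    calc w = 1 * w := (one_mul w).symm
      _ ≤ p i * (2 * w + 1) := by
        gcongr
        calc w ≤ w + w + 1 := by rw [add_assoc]; exact le_self_add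
          _ = 2 * w + 1 := by ring
  obtain ⟨n, z, hn⟩ := exists_mult h hp (hnd k hk) (t + i + 1)
  rw [← hq] at hn
  have hgood : p t * p i + e < q := by
    have h1 : p t * 1 ≤ p t * p i := by gcongr
    rw [mul_one] at h1
    calc p t * p i + e < p t * p i + p t := by gcongr
      _ ≤ p t * p i + p t * p i := by gcongr
      _ = q := by rw [hq']; ring
  have hval : B + u * n * D k = q * (w + z * u) + (p t * p i + e) := by
    calc B + u * n * D k = p t * w + e + u * (n * D k) := by rw [hB]; ring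
      _ = p t * w + e + u * (p t + q * z) := by rw [hn]
      _ = p t * (w + u) + e + q * (z * u) := by ring
      _ = p t * (p i * (2 * w + 1)) + e + q * (z * u) := by rw [hu]
      _ = (p t * p i * 2) * w + (p t * p i + e) + q * (z * u) := by ring
      _ = q * w + (p t * p i + e) + q * (z * u) := by rw [← hq']
      _ = q * (w + z * u) + (p t * p i + e) := by ring
  obtain ⟨P, hP, hr⟩ := hcl (u * n)
  rw [hval, hrm3 _ _ hgood] at hr
  obtain ⟨x, hx⟩ := hrm2 (F k P)
  rw [hr] at hx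
  refine ⟨fun j => bt p j P, h.fn_comp₂ hbt h.fn_id (h.fn_const P), fun j => bt_01 p j P, ?_⟩
  intro G hG hG0 hG1
  have hGF : ∀ j, G j = F j P := by
    intro j
    refine h.ind (P := fun j => G j = F j P) (h.eq hG (h.fn_left hF P)) ?_ ?_ j
    · rw [hG0, hF0]
    · intro j hj
      rw [hG1, hF1, hj]
  refine ⟨x, e, he, ?_⟩
  obtain ⟨m, hm⟩ := exists_add_of_le hk.le
  have e1 : F q P = F k P := by
    conv_lhs => rw [hm]
    exact hFc k P hP m
  rw [hGF, e1, hx]
  calc q * x + (p t * p i + e) = (p t * p i * 2) * x + (p t * p i + e) := by rw [← hq']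
    _ = p t * (p i * (2 * x + 1)) + e := by ring

end Pool.Agent.Helper56.TH
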